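import Mathlib
import Pool.Agent.H97R2.BP.Defs
import Pool.Agent.H97R2.BP.Defs2

open scoped ComplexOrder InnerProductSpace ComplexConjugate TensorProduct
open Finset H759R2.Kad H710R2.DP

noncomputable section

namespace H97R2.BP

namespace ZZ34

lemma cosh_lower (x : ℝ) : 1 + x ^ 2 / 2 ≤ Real.cosh x := by
  have h1 : Real.cosh x = 1 + 2 * Real.sinh (x / 2) ^ 2 := by
    have := Real.cosh_two_mul (x / 2)
    rw [show 2 * (x / 2) = x by ring] at this
    rw [this, Real.cosh_sq]; ring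
  have h2 : (x / 2) ^ 2 ≤ Real.sinh (x / 2) ^ 2 := by
    rcases le_total 0 (x / 2) with h | h
    · have := Real.self_le_sinh_iff.2 h
      nlinarith
    · have := Real.sinh_le_self_iff.2 h
      nlinarith
  nlinarith

lemma cosh_ge (t : ℝ) : 1 + t ^ 2 ≤ Real.cosh (Real.pi * t / 2) := by
  have h := cosh_lower (Real.pi * t / 2)
  have h3 := Real.pi_gt_three
  have h4 : 9 * t ^ 2 ≤ Real.pi ^ 2 * t ^ 2 := by
    apply mul_le_mul_of_nonneg_right _ (sq_nonneg t)
    nlinarith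
  nlinarith [sq_nonneg t]

lemma cosh_pos' (t : ℝ) : 0 < Real.cosh (Real.pi * t / 2) := Real.cosh_pos _

lemma cont_cosh : Continuous fun t : ℝ => (Real.cosh (Real.pi * t / 2) : ℂ) := by
  apply Complex.continuous_ofReal.comp
  exact Real.continuous_cosh.comp (by fun_prop)

lemma integrable_bound (C : ℝ) : MeasureTheory.Integrable fun t : ℝ =>
    C * (Real.cosh (Real.pi * t / 2))⁻¹ := by
  apply MeasureTheory.Integrable.const_mul
  refine (integrable_inv_one_add_sq).mono' ?_ ?_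
  · apply Continuous.aestronglyMeasurable
    apply Continuous.inv₀
    · exact Real.continuous_cosh.comp (by fun_prop)
    · intro t; exact (cosh_pos' t).ne'
  · filter_upwards with t
    rw [Real.norm_eq_abs, abs_of_pos (inv_pos.2 (cosh_pos' t))]
    exact inv_anti₀ (by positivity) (cosh_ge t)

lemma norm_div_cosh (x : ℂ) (t : ℝ) :
    ‖x / (Real.cosh (Real.pi * t / 2) : ℂ)‖ = ‖x‖ * (Real.cosh (Real.pi * t / 2))⁻¹ := by
  rw [norm_div, Complex.norm_real, Real.norm_eq_abs, abs_of_pos (cosh_pos' t), div_eq_mul_inv]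

lemma cont_div {f : ℝ → ℂ} (hf : Continuous f) :
    Continuous fun t : ℝ => f t / (Real.cosh (Real.pi * t / 2) : ℂ) := by
  apply hf.div cont_cosh
  intro t
  exact_mod_cast (cosh_pos' t).ne'

lemma integrable_div {f : ℝ → ℂ} (hf : Continuous f) (C : ℝ) (hC : ∀ t, ‖f t‖ ≤ C) :
    MeasureTheory.Integrable fun t : ℝ => f t / (Real.cosh (Real.pi * t / 2) : ℂ) := by
  refine (integrable_bound C).mono' (cont_div hf).aestronglyMeasurable ?_
  filter_upwards with t
  rw [norm_div_cosh]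
  exact mul_le_mul_of_nonneg_right (hC t) (inv_pos.2 (cosh_pos' t)).le

/-- uniqueness from the Fourier transform. -/
lemma eq_zero_of_fourier {f : ℝ → ℂ} (hf : Continuous f) (hi : MeasureTheory.Integrable f)
    (h : ∀ u : ℝ, ∫ t : ℝ, Complex.exp (Complex.I * u * t) * f t = 0) : f 0 = 0 := by
  have h0 : FourierTransform.fourier f = 0 := by
    funext w
    rw [Real.fourier_real_eq_integral_exp_smul]
    have := h (-2 * Real.pi * w)
    rw [Pi.zero_apply, ← this]
    congr 1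
    funext t
    rw [smul_eq_mul]
    congr 2
    push_cast
    ring
  have h1 := hf.fourierInv_fourier_eq hi (by rw [h0]; exact MeasureTheory.integrable_zero _ _ _)
  rw [← h1, h0]
  rw [Real.fourierInv_eq']
  simp

variable {K : Type} [NormedAddCommGroup K] [InnerProductSpace ℂ K] [CompleteSpace K]

/-- step 1 for the smooth vectors. -/
lemma step0 (hS : Z_strip) (R T : K →L[ℂ] K) (hRT : RT R T) (Y : K →L[ℂ] K)
    (Wu : K →L[ℂ] K) (u : ℝ)
    (hW : ∀ (ξ : K), T (Y (T ξ)) = (Real.exp (-u) : ℂ) • R (Wu ((2 : ℂ) • ξ - R ξ)) +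
      (Real.exp u : ℂ) • ((2 : ℂ) • Wu (R ξ) - R (Wu (R ξ))))
    (U : ℝ → (K →L[ℂ] K)) (a a' b b' : ℂ → K)
    (ha : Differentiable ℂ a) (haB : ∃ B : ℝ, ∀ z : ℂ, |z.re| ≤ 1 → ‖a z‖ ≤ B)
    (haU : ∀ t : ℝ, a (t * Complex.I) = U t (a 0))
    (ha' : ∀ z, T (a' z) = a z ∧ (2 : ℂ) • a' z - R (a' z) = a (z + 1) ∧ R (a' z) = a (z - 1))
    (hb : Differentiable ℂ fun z : ℂ => (innerSL ℂ (b (conj z)) : K →L[ℂ] ℂ))
    (hbB : ∃ B : ℝ, ∀ z : ℂ, |z.re| ≤ 1 → ‖b z‖ ≤ B)
    (hbU : ∀ t : ℝ, b (t * Complex.I) = U t (b 0))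
    (hb' : ∀ z, T (b' z) = b z ∧ (2 : ℂ) • b' z - R (b' z) = b (z + 1) ∧ R (b' z) = b (z - 1)) :
    ∫ t : ℝ, Complex.exp (Complex.I * u * t) *
      (⟪U (-t) (b 0), Y (U (-t) (a 0))⟫_ℂ / (Real.cosh (Real.pi * t / 2) : ℂ)) =
      4 * ⟪b 0, Wu (a 0)⟫_ℂ := by
  set F : ℂ → ℂ := fun z => Complex.exp (u * z) * ⟪b (conj z), Wu (a (-z))⟫_ℂ with hF
  have hFd : Differentiable ℂ F := by
    have h1 : Differentiable ℂ fun z : ℂ => (innerSL ℂ (b (conj z)) : K →L[ℂ] ℂ) (Wu (a (-z))) := by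
      apply hb.clm_apply
      have : Differentiable ℂ fun z : ℂ => a (-z) := ha.comp differentiable_neg
      exact Wu.differentiable.comp this
    have h2 : Differentiable ℂ fun z : ℂ => Complex.exp (u * z) := by fun_prop
    exact h2.mul h1
  have hFB : ∃ B : ℝ, ∀ z : ℂ, |z.re| ≤ 1 → ‖F z‖ ≤ B := by
    obtain ⟨A, hA⟩ := haB
    obtain ⟨B, hB⟩ := hbB
    refine ⟨Real.exp |u| * (B * (‖Wu‖ * A)), fun z hz => ?_⟩
    simp only [hF]
    rw [norm_mul, Complex.norm_exp]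
    apply mul_le_mul _ _ (norm_nonneg _) (Real.exp_pos _).le
    · apply Real.exp_le_exp.2
      have : ((u : ℂ) * z).re = u * z.re := by simp
      rw [this]
      calc u * z.re ≤ |u * z.re| := le_abs_self _
        _ = |u| * |z.re| := abs_mul _ _
        _ ≤ |u| * 1 := mul_le_mul_of_nonneg_left hz (abs_nonneg _)
        _ = |u| := mul_one _
    · refine (norm_inner_le_norm _ _).trans ?_
      have h1 : ‖b (conj z)‖ ≤ B := hB _ (by simpa using hz)
      have h2 : ‖a (-z)‖ ≤ A := hA _ (by simpa using hz)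
      have h3 : ‖Wu (a (-z))‖ ≤ ‖Wu‖ * A :=
        (Wu.le_opNorm _).trans (mul_le_mul_of_nonneg_left h2 (norm_nonneg _))
      exact mul_le_mul h1 h3 (norm_nonneg _) ((norm_nonneg _).trans h1)
  have key := hS F hFd hFB
  have hF0 : F 0 = ⟪b 0, Wu (a 0)⟫_ℂ := by simp [hF]
  rw [← hF0, ← key]
  congr 1
  funext t
  rw [← mul_div_assoc]
  congr 1
  -- the pointwise identity
  have e1 : U (-t) (b 0) = T (b' (-(t : ℂ) * Complex.I)) := by
    rw [(hb' _).1]
    have := hbU (-t)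
    rw [← this]; push_cast; rfl
  have e2 : U (-t) (a 0) = T (a' (-(t : ℂ) * Complex.I)) := by
    rw [(ha' _).1]
    have := haU (-t)
    rw [← this]; push_cast; rfl
  set w : ℂ := -(t : ℂ) * Complex.I with hw
  rw [e1, e2, hRT.tsa, hW, inner_add_right, inner_smul_right, inner_smul_right]
  have hself : ∀ ξ η : K, ⟪ξ, R η⟫_ℂ = ⟪R ξ, η⟫_ℂ := fun ξ η => (hRT.sa ξ η).symm
  have e3 : ⟪b' w, R (Wu ((2 : ℂ) • a' w - R (a' w)))⟫_ℂ = ⟪b (w - 1), Wu (a (w + 1))⟫_ℂ := by
    rw [hself, (ha' w).2.1, (hb' w).2.2]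
  have e4 : ⟪b' w, (2 : ℂ) • Wu (R (a' w)) - R (Wu (R (a' w)))⟫_ℂ =
      ⟪b (w + 1), Wu (a (w - 1))⟫_ℂ := by
    rw [inner_sub_right, hself, inner_smul_right, ← (hb' w).2.1, inner_sub_left, inner_smul_left,
      (ha' w).2.2, map_ofNat]
  rw [e3, e4]
  simp only [hF]
  have c1 : conj (1 + (t : ℂ) * Complex.I) = w + 1 := by
    simp [hw]; ring
  have c2 : conj (-1 + (t : ℂ) * Complex.I) = w - 1 := by
    simp [hw]; ring
  have c3 : -(1 + (t : ℂ) * Complex.I) = w - 1 := by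
    simp [hw]; ring
  have c4 : -(-1 + (t : ℂ) * Complex.I) = w + 1 := by
    simp [hw]
  rw [c1, c2, c3, c4]
  have x1 : Complex.exp (u * (1 + (t : ℂ) * Complex.I)) =
      Complex.exp (Complex.I * u * t) * (Real.exp u : ℂ) := by
    rw [Complex.ofReal_exp, ← Complex.exp_add]
    congr 1; ring
  have x2 : Complex.exp (u * (-1 + (t : ℂ) * Complex.I)) =
      Complex.exp (Complex.I * u * t) * (Real.exp (-u) : ℂ) := by
    rw [Complex.ofReal_exp, ← Complex.exp_add]
    congr 1; push_cast; ring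
  rw [x1, x2]
  ring

/-- step 1 for all vectors. -/
lemma step1 (hS : Z_strip) (R T : K →L[ℂ] K) (hRT : RT R T) (Y : K →L[ℂ] K)
    (Wu : K →L[ℂ] K) (u : ℝ)
    (hW : ∀ (ξ : K), T (Y (T ξ)) = (Real.exp (-u) : ℂ) • R (Wu ((2 : ℂ) • ξ - R ξ)) +
      (Real.exp u : ℂ) • ((2 : ℂ) • Wu (R ξ) - R (Wu (R ξ))))
    (U : ℝ → (K →L[ℂ] K)) (hUn : ∀ t ζ, ‖U t ζ‖ ≤ ‖ζ‖) (hUc : ∀ ζ, Continuous fun t => U t ζ)
    (hap : ∀ ζ : K, ∀ ε : ℝ, 0 < ε → ∃ a a' : ℂ → K, ‖a 0 - ζ‖ < ε ∧ Differentiable ℂ a ∧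
        (Differentiable ℂ fun z : ℂ => (innerSL ℂ (a (conj z)) : K →L[ℂ] ℂ)) ∧
        (∃ B : ℝ, ∀ z : ℂ, |z.re| ≤ 1 → ‖a z‖ ≤ B) ∧
        (∀ t : ℝ, a (t * Complex.I) = U t (a 0)) ∧
        ∀ z, T (a' z) = a z ∧ (2 : ℂ) • a' z - R (a' z) = a (z + 1) ∧ R (a' z) = a (z - 1))
    (α β : K) :
    ∫ t : ℝ, Complex.exp (Complex.I * u * t) *
      (⟪U (-t) β, Y (U (-t) α)⟫_ℂ / (Real.cosh (Real.pi * t / 2) : ℂ)) =
      4 * ⟪β, Wu α⟫_ℂ := by
  have hpos : ∀ n : ℕ, (0 : ℝ) < 1 / ((n : ℝ) + 1) := fun n => by positivity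
  choose a a' ha0 ha hac haB haU ha' using fun n : ℕ => hap α _ (hpos n)
  choose b b' hb0 hb hbc hbB hbU hb' using fun n : ℕ => hap β _ (hpos n)
  have hlim0 : Filter.Tendsto (fun n : ℕ => 1 / ((n : ℝ) + 1)) Filter.atTop (nhds 0) :=
    tendsto_one_div_add_atTop_nhds_zero_nat
  have hαn : Filter.Tendsto (fun n => a n 0) Filter.atTop (nhds α) := by
    rw [tendsto_iff_norm_sub_tendsto_zero]
    exact squeeze_zero (fun n => norm_nonneg _) (fun n => (ha0 n).le) hlim0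
  have hβn : Filter.Tendsto (fun n => b n 0) Filter.atTop (nhds β) := by
    rw [tendsto_iff_norm_sub_tendsto_zero]
    exact squeeze_zero (fun n => norm_nonneg _) (fun n => (hb0 n).le) hlim0
  have hid := fun n => step0 hS R T hRT Y Wu u hW U (a n) (a' n) (b n) (b' n) (ha n) (haB n)
    (haU n) (ha' n) (hbc n) (hbB n) (hbU n) (hb' n)
  have hR : Filter.Tendsto (fun n => 4 * ⟪b n 0, Wu (a n 0)⟫_ℂ) Filter.atTop
      (nhds (4 * ⟪β, Wu α⟫_ℂ)) := by
    apply Filter.Tendsto.const_mul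
    exact hβn.inner ((Wu.continuous.tendsto α).comp hαn)
  have hcont : ∀ α β : K, Continuous fun t : ℝ => ⟪U (-t) β, Y (U (-t) α)⟫_ℂ := by
    intro α β
    have h1 : Continuous fun t : ℝ => U (-t) β := (hUc β).comp continuous_neg
    have h2 : Continuous fun t : ℝ => U (-t) α := (hUc α).comp continuous_neg
    exact h1.inner (Y.continuous.comp h2)
  have hexpc : Continuous fun t : ℝ => Complex.exp (Complex.I * u * t) := by fun_prop
  have hexpn : ∀ t : ℝ, ‖Complex.exp (Complex.I * u * t)‖ = 1 := by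
    intro t
    rw [Complex.norm_exp]
    simp
  have hL : Filter.Tendsto (fun n => ∫ t : ℝ, Complex.exp (Complex.I * u * t) *
      (⟪U (-t) (b n 0), Y (U (-t) (a n 0))⟫_ℂ / (Real.cosh (Real.pi * t / 2) : ℂ))) Filter.atTop
      (nhds (∫ t : ℝ, Complex.exp (Complex.I * u * t) *
      (⟪U (-t) β, Y (U (-t) α)⟫_ℂ / (Real.cosh (Real.pi * t / 2) : ℂ)))) := by
    apply MeasureTheory.tendsto_integral_of_dominated_convergence
      (fun t => ((‖β‖ + 1) * (‖Y‖ * (‖α‖ + 1))) * (Real.cosh (Real.pi * t / 2))⁻¹)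
    · intro n
      exact (hexpc.mul (cont_div (hcont _ _))).aestronglyMeasurable
    · exact integrable_bound _
    · intro n
      filter_upwards with t
      rw [norm_mul, hexpn, one_mul, norm_div_cosh]
      apply mul_le_mul_of_nonneg_right _ (inv_pos.2 (cosh_pos' t)).le
      refine (norm_inner_le_norm _ _).trans ?_
      have h1 : 1 / ((n : ℝ) + 1) ≤ 1 := by
        rw [div_le_one (by positivity)]
        have : (0 : ℝ) ≤ n := Nat.cast_nonneg n
        linarith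
      have hb1 : ‖U (-t) (b n 0)‖ ≤ ‖β‖ + 1 := by
        refine (hUn _ _).trans ?_
        have := norm_le_norm_add_norm_sub' (b n 0) β
        have := (hb0 n).le
        linarith
      have ha1 : ‖U (-t) (a n 0)‖ ≤ ‖α‖ + 1 := by
        refine (hUn _ _).trans ?_
        have := norm_le_norm_add_norm_sub' (a n 0) α
        have := (ha0 n).le
        linarith
      apply mul_le_mul hb1 _ (norm_nonneg _) (by positivity)
      exact (Y.le_opNorm _).trans (mul_le_mul_of_nonneg_left ha1 (norm_nonneg _))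
    · filter_upwards with t
      apply Filter.Tendsto.const_mul
      apply Filter.Tendsto.div_const
      have h1 := ((U (-t)).continuous.tendsto β).comp hβn
      have h2 := ((U (-t)).continuous.tendsto α).comp hαn
      exact h1.inner ((Y.continuous.tendsto _).comp h2)
  simp only [hid] at hL
  exact tendsto_nhds_unique hL hR

end ZZ34

open ZZ34

theorem bp_mod (h1 : Z_strip) (h2 : Z_grp) : Z_mod := by
  intro K _ _ _ R T hRT Y W c hc hW z hz
  obtain ⟨U, hU0, hUn, hUc, hap⟩ := h2 K R T hRT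
  have key : ∀ (u : ℝ) (α β : K), ∫ t : ℝ, Complex.exp (Complex.I * u * t) *
      (⟪U (-t) β, Y (U (-t) α)⟫_ℂ / (Real.cosh (Real.pi * t / 2) : ℂ)) =
      4 * ⟪β, W u α⟫_ℂ := fun u α β =>
    step1 h1 R T hRT Y (W u) u (hW u) U hUn hUc hap α β
  have hcont : ∀ α β : K, Continuous fun t : ℝ => ⟪U (-t) β, Y (U (-t) α)⟫_ℂ := by
    intro α β
    have h1 : Continuous fun t : ℝ => U (-t) β := (hUc β).comp continuous_neg
    have h2 : Continuous fun t : ℝ => U (-t) α := (hUc α).comp continuous_neg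
    exact h1.inner (Y.continuous.comp h2)
  have hbd : ∀ (α β : K) (t : ℝ), ‖⟪U (-t) β, Y (U (-t) α)⟫_ℂ‖ ≤ ‖β‖ * (‖Y‖ * ‖α‖) := by
    intro α β t
    refine (norm_inner_le_norm _ _).trans ?_
    apply mul_le_mul (hUn _ _) _ (norm_nonneg _) (norm_nonneg _)
    exact (Y.le_opNorm _).trans (mul_le_mul_of_nonneg_left (hUn _ _) (norm_nonneg _))
  have hexpc : ∀ u : ℝ, Continuous fun t : ℝ => Complex.exp (Complex.I * u * t) := by
    intro u; fun_prop
  have hexpn : ∀ u t : ℝ, ‖Complex.exp (Complex.I * u * t)‖ = 1 := by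
    intro u t
    rw [Complex.norm_exp]
    simp
  have hint : ∀ (α β : K) (u : ℝ), MeasureTheory.Integrable fun t : ℝ =>
      Complex.exp (Complex.I * u * t) *
      (⟪U (-t) β, Y (U (-t) α)⟫_ℂ / (Real.cosh (Real.pi * t / 2) : ℂ)) := by
    intro α β u
    refine (integrable_bound (‖β‖ * (‖Y‖ * ‖α‖))).mono'
      ((hexpc u).mul (cont_div (hcont _ _))).aestronglyMeasurable ?_
    filter_upwards with t
    rw [norm_mul, hexpn, one_mul, norm_div_cosh]
    exact mul_le_mul_of_nonneg_right (hbd α β t) (inv_pos.2 (cosh_pos' t)).le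
  have hint0 : ∀ (α β : K), MeasureTheory.Integrable fun t : ℝ =>
      (⟪U (-t) β, Y (U (-t) α)⟫_ℂ / (Real.cosh (Real.pi * t / 2) : ℂ)) := by
    intro α β
    exact integrable_div (hcont α β) _ (hbd α β)
  ext α
  refine ext_inner_left ℂ fun β => ?_
  set f : ℝ → ℂ := fun t => ⟪U (-t) β, Y (U (-t) (z α))⟫_ℂ / (Real.cosh (Real.pi * t / 2) : ℂ) -
    ⟪U (-t) (ContinuousLinearMap.adjoint z β), Y (U (-t) α)⟫_ℂ /
      (Real.cosh (Real.pi * t / 2) : ℂ) with hf
  have hfc : Continuous f := (cont_div (hcont _ _)).sub (cont_div (hcont _ _))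
  have hfi : MeasureTheory.Integrable f := (hint0 _ _).sub (hint0 _ _)
  have hzero : ∀ u : ℝ, ∫ t : ℝ, Complex.exp (Complex.I * u * t) * f t = 0 := by
    intro u
    have e : (fun t : ℝ => Complex.exp (Complex.I * u * t) * f t) = fun t : ℝ =>
      Complex.exp (Complex.I * u * t) *
      (⟪U (-t) β, Y (U (-t) (z α))⟫_ℂ / (Real.cosh (Real.pi * t / 2) : ℂ)) -
      Complex.exp (Complex.I * u * t) *
      (⟪U (-t) (ContinuousLinearMap.adjoint z β), Y (U (-t) α)⟫_ℂ /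
        (Real.cosh (Real.pi * t / 2) : ℂ)) := by
      funext t; simp only [hf]; ring
    rw [e, MeasureTheory.integral_sub (hint _ _ _) (hint _ _ _), key, key]
    have hcomm : W u (z α) = z (W u α) := by
      have := congrArg (fun x : K →L[ℂ] K => x α) (hz u)
      simpa using this.symm
    rw [hcomm, ContinuousLinearMap.adjoint_inner_left]
    ring
  have hf0 := eq_zero_of_fourier hfc hfi hzero
  simp only [hf] at hf0
  rw [neg_zero, hU0] at hf0
  simp only [one_apply_eq_self, mul_zero, zero_div, Real.cosh_zero, Complex.ofReal_one,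
    div_one] at hf0
  rw [ContinuousLinearMap.adjoint_inner_left] at hf0
  exact (sub_eq_zero.1 hf0).symm

end H97R2.BP
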